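import Pool.Agent.H14G.Els
import Pool.Agent.H14G.CLS
import Pool.Agent.H14G.BIG
import Pool.Agent.H14G.SQFF
import Pool.Agent.H14G.LOCF
import Pool.Agent.H14G.LEMA
import Pool.Agent.H14F.FinB
import Pool.Agent.H14F.BM
import Pool.Agent.W930.BMX.Val

/-!
# The Brauer-Manin sets of 100% of the everywhere locally soluble curves `y² = f(F(x)) g(F(x))` are empty

Let `F ∈ ℤ[x]` be any nonconstant polynomial. We consider the hyperelliptic curves

  `y² = f(F(x)) g(F(x))`,  `f = a₀ x² + a₁ x + a₂`, `g = b₀ x² + b₁ x + b₂`,  `|a_i|, |b_i| ≤ H`,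

of genus `2 deg F - 1`. There is one set `E` of exceptional pairs `(f, g)` for all `F`, with at most
`C H⁶ (log H)^(-2/25)` elements in the box, such that for all the other pairs and all `F` every adelic point of
the curve is obstructed by one of the classes `(f(F), e)`, `e` a nonzero integer, of the Brauer group, so that the
Brauer-Manin set is empty. On the other hand, for every `F` a positive proportion of all pairs give smooth
curves with adelic points. So Stoll's conjecture holds for 100% of the curves with adelic points, for every `F`;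
these violate the Hasse principle.

The proof. The first part is in `MP_d6ddbd_nt.AllPairsOfForms` (project F6): a 2-isogeny descent with an
unbounded number of coverings and a sieve. The second part is new: for a prime `p` not dividing a fixed number
and a pair with `f(F) g(F)` not a constant times a square modulo `p` there are points over `ℚ_p` (Weil, Hensel).
If `W = f g ≠ 0` and `W(F)` is a constant times a square modulo `p`, then `W` is a constant times a square, or
`W = e (x - α) s²` and `F - α` is a constant times a square, which determines `α` modulo `p`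
(`H14G/LEMA.lean`). So there are at most `7 p⁴` bad classes of pairs modulo `p`, and the sum of `7 / p²` over the
large primes is small; for the primes of size `H` and more the bad pairs are counted directly.

Parts of the proof were written by the seats helper9 (`BIG`), helper59 (`LOCF`), helper69 (`CLS`), helper99
(`SQFF`), helper20 (the model `H14F/ELS.lean`) and by the provers of the project F6.
-/

set_option autoImplicit false
set_option linter.all false

namespace Pool.Agent.Results.MP_ab3ecb_nt.AllPairsAllCoverings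

open Polynomial Pool.Agent.W313.BMX

open scoped Classical

/-- the polynomials `f(F)` and `g(F)` -/
noncomputable def factors (F : ℤ[X]) (a b : Fin 3 → ℤ) : Fin 2 → ℤ[X] :=
  ![C (a 0) * F ^ 2 + C (a 1) * F + C (a 2), C (b 0) * F ^ 2 + C (b 1) * F + C (b 2)]

/-- Every adelic point of the curve `y² = f(F(x)) g(F(x))` is obstructed by one of the classes
`(f(F), e)` of the Brauer group: the number of the places at which the value of the class is not trivial is
odd (and finite), the sum of the invariants is `1/2`. -/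
def Obstructed (F : ℤ[X]) (a b : Fin 3 → ℤ) : Prop :=
  ∀ P : AdelicPoint (factors F a b) 1, ∃ e : ℤ, e ≠ 0 ∧ Odd (ram (values P 0) e).ncard

/-- `y² = f(F(x)) g(F(x))` is a smooth hyperelliptic curve of genus `2 deg F - 1` and has adelic points. -/
def Good (F : ℤ[X]) (a b : Fin 3 → ℤ) : Prop :=
  a 0 ≠ 0 ∧ b 0 ≠ 0 ∧ Squarefree ((factors F a b 0 * factors F a b 1).map (Int.castRingHom ℚ)) ∧
    Nonempty (AdelicPoint (factors F a b) 1)

/-- the number of the pairs `(a, b)` with all `|a_i|, |b_i| ≤ H` with the property `P` -/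
noncomputable def count (H : ℕ) (P : (Fin 3 → ℤ) → (Fin 3 → ℤ) → Prop) : ℕ :=
  (((Fintype.piFinset fun _ => Finset.Icc (-(H : ℤ)) H) ×ˢ
    (Fintype.piFinset fun _ => Finset.Icc (-(H : ℤ)) H)).filter
      fun p : (Fin 3 → ℤ) × (Fin 3 → ℤ) => P p.1 p.2).card

theorem count_eq (H : ℕ) (P : (Fin 3 → ℤ) → (Fin 3 → ℤ) → Prop) : count H P =
    ((Pool.Agent.H14F.box H ×ˢ Pool.Agent.H14F.box H).filter
      fun p : (Fin 3 → ℤ) × (Fin 3 → ℤ) => P p.1 p.2).card := rfl

theorem count_le {H : ℕ} {P Q : (Fin 3 → ℤ) → (Fin 3 → ℤ) → Prop} (h : ∀ a b, P a b → Q a b) :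
    count H P ≤ count H Q := by
  unfold count
  refine Finset.card_le_card fun p hp => ?_
  rw [Finset.mem_filter] at hp ⊢
  exact ⟨hp.1, h _ _ hp.2⟩

theorem count_split {H : ℕ} {P Q R : (Fin 3 → ℤ) → (Fin 3 → ℤ) → Prop}
    (h : ∀ a b, P a b → Q a b ∨ R a b) : count H P ≤ count H Q + count H R := by
  unfold count
  refine le_trans (Finset.card_le_card ?_) (Finset.card_union_le _ _)
  intro p hp
  have hp := Finset.mem_filter.1 hp
  refine Finset.mem_union.2 ?_
  rcases h p.1 p.2 hp.2 with h | h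
  · exact Or.inl (Finset.mem_filter.2 ⟨hp.1, h⟩)
  · exact Or.inr (Finset.mem_filter.2 ⟨hp.1, h⟩)


/-- a point of the curve from a solution -/
theorem point_of {F : ℤ[X]} {a b : Fin 3 → ℤ} {K : Type} [Field K]
    (h : Pool.Agent.H14G.SolF F a b K) : Nonempty (Point (factors F a b) 1 K) := by
  obtain ⟨x, y, h⟩ := h
  have e0 : factors F a b 0 = C (a 0) * F ^ 2 + C (a 1) * F + C (a 2) := rfl
  have e1 : factors F a b 1 = C (b 0) * F ^ 2 + C (b 1) * F + C (b 2) := rfl
  refine ⟨⟨x, 1, y, Or.inr one_ne_zero, ?_⟩⟩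
  rw [Fin.prod_univ_two, e0, e1, Pool.Agent.W930.BMX.homog_div _ one_ne_zero,
    Pool.Agent.W930.BMX.homog_div _ one_ne_zero, div_one, h]
  simp only [eval₂_add, eval₂_mul, eval₂_pow, eval₂_C]
  simp only [eq_intCast (Int.castRingHom K), Pool.Agent.H14F.ev]
  push_cast
  ring

theorem isTest_ne {e : ℤ} (h : IsTest e) : e ≠ 0 := by
  rcases h with rfl | rfl | ⟨-, h⟩
  · norm_num
  · norm_num
  · rintro rfl
    norm_num at h

/-- many good pairs -/
theorem low {F : ℤ[X]} (hF : 1 ≤ F.natDegree) : ∃ (c : ℝ) (H₀ : ℕ), 0 < c ∧ ∀ H : ℕ, H₀ ≤ H →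
    c * (H : ℝ) ^ 6 ≤ (count H (Good F) : ℝ) := by
  obtain ⟨c, H0, hc, h⟩ := Pool.Agent.H14G.main Pool.Agent.H14G.CLS.t Pool.Agent.H14G.BIG.t
    Pool.Agent.H14G.SQFF.t (Pool.Agent.H14G.LOCF.t Pool.Agent.H14G.LEMA.t) F hF
  refine ⟨c, H0, hc, fun H hH => (h H hH).trans ?_⟩
  rw [count_eq]
  have : (Pool.Agent.H14G.G F H).card ≤
      ((Pool.Agent.H14F.box H ×ˢ Pool.Agent.H14F.box H).filter
        fun p : (Fin 3 → ℤ) × (Fin 3 → ℤ) => Good F p.1 p.2).card := by
    unfold Pool.Agent.H14G.G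
    refine Finset.card_le_card fun q hq => ?_
    rw [Finset.mem_filter] at hq ⊢
    obtain ⟨h1, ⟨h2, h3, h4⟩, h5, h6⟩ := hq
    refine ⟨h1, h2, h3, h4, ?_⟩
    have hQ : ∀ p : Nat.Primes, Nonempty (Point (factors F q.1 q.2) 1 ℚ_[(p : ℕ)]) := by
      intro p
      haveI : Fact (p : ℕ).Prime := ⟨p.2⟩
      exact point_of (h6 p)
    exact ⟨⟨(point_of h5).some, fun p => (hQ p).some⟩⟩
  exact_mod_cast this

/-- **Theorem.** There are a set `E` of pairs `(a, b)` of triples of integers and a constant `C` such that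
for all `H ≥ 3` at most `C H⁶ (log H)^(-2/25)` of the pairs with `|a_i|, |b_i| ≤ H` are in `E`, and such that
for every nonconstant `F ∈ ℤ[x]`
(1) for `(a, b) ∉ E` every adelic point of `y² = f(F(x)) g(F(x))`, `f = a₀ x² + a₁ x + a₂`,
`g = b₀ x² + b₁ x + b₂`, is obstructed by a class `(f(F), e)`, and there is no rational point;
(2) at least `c H⁶` of the pairs with `|a_i|, |b_i| ≤ H` give smooth curves with adelic points, for some
`c > 0` and all large `H`;
(3) hence the proportion of the pairs which are not in `E` among these tends to `1`. -/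
theorem result :
    ∃ (E : Set ((Fin 3 → ℤ) × (Fin 3 → ℤ))) (C : ℝ), 0 < C ∧
    (∀ H : ℕ, 3 ≤ H → (count H (fun a b => (a, b) ∈ E) : ℝ) ≤
        C * (H : ℝ) ^ 6 * Real.log H ^ (-(2 : ℝ) / 25)) ∧
    ∀ F : ℤ[X], 1 ≤ F.natDegree →
      (∀ a b : Fin 3 → ℤ, (a, b) ∉ E → Obstructed F a b ∧
        IsEmpty (Point (factors F a b) 1 ℚ)) ∧
      (∃ c : ℝ, 0 < c ∧ ∃ H₀ : ℕ, ∀ H : ℕ, H₀ ≤ H →
        c * (H : ℝ) ^ 6 ≤ (count H (Good F) : ℝ)) ∧
      Filter.Tendsto (fun H : ℕ =>
        (count H (fun a b => Good F a b ∧ (a, b) ∉ E) : ℝ) / (count H (Good F) : ℝ))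
          Filter.atTop (nhds 1) := by
  obtain ⟨C₁, hC₁, hup⟩ := Pool.Agent.H14F.anaT
  obtain ⟨C₂, hC₂, hdeg⟩ := Pool.Agent.H14F.DEG.t
  have hE : ∀ H : ℕ, 3 ≤ H → (count H (fun a b => (a, b) ∈
      {p : (Fin 3 → ℤ) × (Fin 3 → ℤ) | ¬ Pool.Agent.H14F.Cert p.1 p.2 ∨ p.1 0 = 0 ∨ p.2 0 = 0}) :
        ℝ) ≤ (C₁ + C₂) * (H : ℝ) ^ 6 * Real.log H ^ (-(2 : ℝ) / 25) := by
    intro H hH
    have hHr : (3 : ℝ) ≤ H := by exact_mod_cast hH
    have hL0 : 0 < Real.log H := Real.log_pos (by linarith)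
    have h1 : (count H (fun a b => (a, b) ∈
        {p : (Fin 3 → ℤ) × (Fin 3 → ℤ) | ¬ Pool.Agent.H14F.Cert p.1 p.2 ∨ p.1 0 = 0 ∨ p.2 0 = 0}) :
          ℝ) ≤ (count H (fun a b => Pool.Agent.H14F.res a b ≠ 0 ∧ ¬ Pool.Agent.H14F.Cert a b) : ℝ) +
        (count H (fun a b => Pool.Agent.H14F.res a b = 0 ∨ Pool.Agent.H14F.disc a = 0 ∨
          Pool.Agent.H14F.disc b = 0 ∨ a 0 = 0 ∨ b 0 = 0) : ℝ) := by
      have := count_split (H := H) (P := fun a b => (a, b) ∈
        {p : (Fin 3 → ℤ) × (Fin 3 → ℤ) | ¬ Pool.Agent.H14F.Cert p.1 p.2 ∨ p.1 0 = 0 ∨ p.2 0 = 0})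
        (Q := fun a b => Pool.Agent.H14F.res a b ≠ 0 ∧ ¬ Pool.Agent.H14F.Cert a b)
        (R := fun a b => Pool.Agent.H14F.res a b = 0 ∨ Pool.Agent.H14F.disc a = 0 ∨
          Pool.Agent.H14F.disc b = 0 ∨ a 0 = 0 ∨ b 0 = 0) (fun a b h => by
            by_cases hr : Pool.Agent.H14F.res a b = 0
            · exact Or.inr (Or.inl hr)
            · rcases h with h | h | h
              · exact Or.inl ⟨hr, h⟩
              · exact Or.inr (Or.inr (Or.inr (Or.inr (Or.inl h))))
              · exact Or.inr (Or.inr (Or.inr (Or.inr (Or.inr h)))))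
      exact_mod_cast this
    have h2 : (count H (fun a b => Pool.Agent.H14F.res a b ≠ 0 ∧ ¬ Pool.Agent.H14F.Cert a b) : ℝ) ≤
        C₁ * (H : ℝ) ^ 6 * Real.log H ^ (-(2 : ℝ) / 25) := by
      refine le_trans (le_of_eq ?_) (hup H hH)
      rw [count_eq]
      congr 1
      refine congrArg Finset.card (Finset.ext fun q => ?_)
      unfold Pool.Agent.H14F.NC
      simp only [Finset.mem_filter]
    have h3 : (count H (fun a b => Pool.Agent.H14F.res a b = 0 ∨ Pool.Agent.H14F.disc a = 0 ∨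
          Pool.Agent.H14F.disc b = 0 ∨ a 0 = 0 ∨ b 0 = 0) : ℝ) ≤ C₂ * (H : ℝ) ^ 5 := by
      refine le_trans (le_of_eq ?_) (hdeg H (by omega))
      rw [count_eq]
      congr 1
      refine congrArg Finset.card (Finset.ext fun q => ?_)
      simp only [Finset.mem_filter]
    have h4 : C₂ * (H : ℝ) ^ 5 ≤ C₂ * (H : ℝ) ^ 6 * Real.log H ^ (-(2 : ℝ) / 25) := by
      have h5 : (H : ℝ)⁻¹ ≤ Real.log H ^ (-(2 : ℝ) / 25) := by
        have h6 : Real.log H ≤ H := (Real.log_le_self (by linarith))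
        have h7 : (H : ℝ) ^ (-(2 : ℝ) / 25) ≤ Real.log H ^ (-(2 : ℝ) / 25) :=
          Real.rpow_le_rpow_of_nonpos hL0 h6 (by norm_num)
        refine le_trans ?_ h7
        rw [← Real.rpow_neg_one]
        exact Real.rpow_le_rpow_of_exponent_le (by linarith) (by norm_num)
      calc C₂ * (H : ℝ) ^ 5 = C₂ * (H : ℝ) ^ 6 * (H : ℝ)⁻¹ := by
            field_simp
        _ ≤ _ := mul_le_mul_of_nonneg_left h5 (by positivity)
    calc _ ≤ _ := h1
      _ ≤ C₁ * (H : ℝ) ^ 6 * Real.log H ^ (-(2 : ℝ) / 25) +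
          C₂ * (H : ℝ) ^ 6 * Real.log H ^ (-(2 : ℝ) / 25) := add_le_add h2 (h3.trans h4)
      _ = _ := by ring
  refine ⟨{p | ¬ Pool.Agent.H14F.Cert p.1 p.2 ∨ p.1 0 = 0 ∨ p.2 0 = 0}, C₁ + C₂,
    by positivity, hE, ?_⟩
  intro F hF
  obtain ⟨c, H0, hc, hG⟩ := low hF
  refine ⟨?_, ⟨c, hc, H0, hG⟩, ?_⟩
  · intro a b hab
    have hab' : Pool.Agent.H14F.Cert a b ∧ a 0 ≠ 0 ∧ b 0 ≠ 0 := by
      simpa only [Set.mem_ofPred_eq, not_or, not_not] using hab
    obtain ⟨hcert, ha, hb⟩ := hab'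
    obtain ⟨h1, h2⟩ := Pool.Agent.H14F.BM.t F a b hF ha hb hcert
    refine ⟨fun P => ?_, h2⟩
    obtain ⟨e, he, hodd⟩ := h1 P
    exact ⟨e, isTest_ne he, hodd⟩
  · have hlim : Filter.Tendsto (fun H : ℕ => 1 - (C₁ + C₂) / c * Real.log H ^ (-(2 : ℝ) / 25))
        Filter.atTop (nhds 1) := by
      have e1 : Filter.Tendsto (fun H : ℕ => Real.log H ^ (-(2 : ℝ) / 25)) Filter.atTop (nhds 0) := by
        have h5 : Filter.Tendsto (fun x : ℝ => x ^ (-(2 / 25 : ℝ))) Filter.atTop (nhds 0) :=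
          tendsto_rpow_neg_atTop (by norm_num)
        have h6 := h5.comp (Real.tendsto_log_atTop.comp tendsto_natCast_atTop_atTop)
        refine h6.congr fun H => ?_
        simp only [Function.comp_apply]
        norm_num
      have e3 := (e1.const_mul ((C₁ + C₂) / c)).const_sub 1
      rw [mul_zero, sub_zero] at e3
      exact e3
    refine tendsto_of_tendsto_of_tendsto_of_le_of_le' hlim tendsto_const_nhds ?_ ?_
    · rw [Filter.eventually_atTop]
      refine ⟨max 3 H0, fun H hH => ?_⟩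
      have hH3 : 3 ≤ H := le_trans (le_max_left _ _) hH
      have a1 := hE H hH3
      have a2 := hG H (le_trans (le_max_right _ _) hH)
      have hHr : (3 : ℝ) ≤ H := by exact_mod_cast hH3
      have hL0 : 0 < Real.log H := Real.log_pos (by linarith)
      have a3 : (count H (Good F) : ℝ) ≤
          (count H (fun a b => Good F a b ∧ (a, b) ∉
            {p : (Fin 3 → ℤ) × (Fin 3 → ℤ) | ¬ Pool.Agent.H14F.Cert p.1 p.2 ∨ p.1 0 = 0 ∨
              p.2 0 = 0}) : ℝ) +
          (count H (fun a b => (a, b) ∈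
            {p : (Fin 3 → ℤ) × (Fin 3 → ℤ) | ¬ Pool.Agent.H14F.Cert p.1 p.2 ∨ p.1 0 = 0 ∨
              p.2 0 = 0}) : ℝ) := by
        have := count_split (H := H) (P := Good F) (Q := fun a b => Good F a b ∧ (a, b) ∉
            {p : (Fin 3 → ℤ) × (Fin 3 → ℤ) | ¬ Pool.Agent.H14F.Cert p.1 p.2 ∨ p.1 0 = 0 ∨
              p.2 0 = 0})
          (R := fun a b => (a, b) ∈
            {p : (Fin 3 → ℤ) × (Fin 3 → ℤ) | ¬ Pool.Agent.H14F.Cert p.1 p.2 ∨ p.1 0 = 0 ∨
              p.2 0 = 0}) (fun a b hp => by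
            by_cases h : (a, b) ∈ {p : (Fin 3 → ℤ) × (Fin 3 → ℤ) |
              ¬ Pool.Agent.H14F.Cert p.1 p.2 ∨ p.1 0 = 0 ∨ p.2 0 = 0}
            · exact Or.inr h
            · exact Or.inl ⟨hp, h⟩)
        exact_mod_cast this
      have hpos : 0 < (count H (Good F) : ℝ) := lt_of_lt_of_le (by positivity) a2
      rw [le_div_iff₀ hpos]
      have a5 : (C₁ + C₂) * (H : ℝ) ^ 6 * Real.log H ^ (-(2 : ℝ) / 25) ≤
          (C₁ + C₂) / c * Real.log H ^ (-(2 : ℝ) / 25) * (count H (Good F) : ℝ) := by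
        have := mul_le_mul_of_nonneg_left a2
          (by positivity : 0 ≤ (C₁ + C₂) / c * Real.log H ^ (-(2 : ℝ) / 25))
        refine le_trans (le_of_eq ?_) this
        field_simp
      linarith
    · rw [Filter.eventually_atTop]
      refine ⟨0, fun H _ => ?_⟩
      refine div_le_one_of_le₀ ?_ (Nat.cast_nonneg _)
      have : count H (fun a b => Good F a b ∧ (a, b) ∉
            {p : (Fin 3 → ℤ) × (Fin 3 → ℤ) | ¬ Pool.Agent.H14F.Cert p.1 p.2 ∨ p.1 0 = 0 ∨
              p.2 0 = 0}) ≤ count H (Good F) :=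
        count_le fun a b h => h.1
      exact_mod_cast this

end Pool.Agent.Results.MP_ab3ecb_nt.AllPairsAllCoverings
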