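import Pool.Agent.H82.ST.Glob
import Pool.Agent.H82.ST.Low

/-!
# The curves `(A(x)² - m)(B(y)² - n) = k`: orthogonal adelic points

For every `k ≠ 0` and all but at most `C τ(k)² H² √(log log H / log H)` of the pairs `(m, n)` with
`|m|, |n| ≤ H`, for ALL polynomials `A, B` with integer coefficients, no adelic point of the complete curve
`(A(x)² - m)(B(y)² - n) = k` is orthogonal to the quaternion algebras `(A(x)² - m, e)`, `e` an integer.  The
genus of these curves is unbounded.  For every nonconstant `A`, `b ≥ 1` and `k ≠ 0` a positive proportion of the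
curves `(A(x)² - m)(y^{2b} - n) = k` has points over `ℝ` and all `ℚ_p`.

Proof.  If the values of `A(x)² - m` at an adelic point were orthogonal to all `(⋅, e)`, they would be, up to
squares in the completions, equal to one integer `d` (exactness of the reciprocity sequence), and `d ∣ k` as the
divisor of the function is even.  The large sieve gives for most of the pairs for every `d ∣ k` a prime `q ∤ 2k`
which divides `m n - k` exactly once and such that `d n` is not a square modulo `q`; then the curve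
`d z² = A(x)² - m` has no point over `ℚ_q`.  The local solubility follows from Weil's bound for character sums.
-/

set_option autoImplicit false

namespace Pool.Agent.Results.MP_ab3ecb_nt.CoversOfGenusOne

open Polynomial

open scoped Classical

/-- the form `w ^ a A(x / w)`, where `a = deg A` -/
noncomputable def form {K : Type} [Field K] (A : ℤ[X]) (x w : K) : K :=
  ∑ i ∈ Finset.range (A.natDegree + 1), (A.coeff i : K) * x ^ i * w ^ (A.natDegree - i)

/-- a point `((x : w), (y : z))` with coordinates in `K` of the closure of the curve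
`(A(x)² - m)(B(y)² - n) = k` in `ℙ¹ × ℙ¹` -/
structure Point (A B : ℤ[X]) (m n k : ℤ) (K : Type) [Field K] where
  x : K
  w : K
  y : K
  z : K
  hxw : x ≠ 0 ∨ w ≠ 0
  hyz : y ≠ 0 ∨ z ≠ 0
  eq : (form A x w ^ 2 - m * w ^ (2 * A.natDegree)) * (form B y z ^ 2 - n * z ^ (2 * B.natDegree)) =
    k * w ^ (2 * A.natDegree) * z ^ (2 * B.natDegree)

/-- the value of the function `A(x)² - m = k / (B(y)² - n)` at the point, up to squares: it is
`form A² - m w^(2a)` if this is not `0` and `k (form B² - n z^(2b))` otherwise -/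
noncomputable def Point.value {A B : ℤ[X]} {m n k : ℤ} {K : Type} [Field K] (P : Point A B m n k K) : K :=
  if form A P.x P.w ^ 2 - m * P.w ^ (2 * A.natDegree) ≠ 0 then
    form A P.x P.w ^ 2 - m * P.w ^ (2 * A.natDegree)
  else k * (form B P.y P.z ^ 2 - n * P.z ^ (2 * B.natDegree))

/-- the Hilbert symbol `(a, b)` of `K` is `1`: the conic `z² = a x² + b y²` has a point over `K` -/
def Splits {K : Type} [Field K] (a b : K) : Prop :=
  ∃ x y z : K, (x ≠ 0 ∨ y ≠ 0 ∨ z ≠ 0) ∧ z ^ 2 = a * x ^ 2 + b * y ^ 2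

instance factPrime (p : Nat.Primes) : Fact (p : ℕ).Prime := ⟨p.2⟩

/-- the places `v` of `ℚ` (`none` is the real place) at which the symbol `(A(x)² - m, e)_v` at the given adelic
point is `-1` -/
def places {A B : ℤ[X]} {m n k : ℤ} (R : Point A B m n k ℝ) (P : ∀ p : Nat.Primes, Point A B m n k ℚ_[(p : ℕ)])
    (e : ℤ) : Set (Option Nat.Primes) :=
  {v | match v with
    | none => ¬ Splits R.value (e : ℝ)
    | some p => ¬ Splits (P p).value (e : ℚ_[(p : ℕ)])}

/-- for all polynomials `A` and `B`, no adelic point of `(A(x)² - m)(B(y)² - n) = k` is orthogonal to all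
the classes `(A(x)² - m, e)`, `e` a nonzero integer -/
def Obstructed (m n k : ℤ) : Prop :=
  ∀ (A B : ℤ[X]) (R : Point A B m n k ℝ) (P : ∀ p : Nat.Primes, Point A B m n k ℚ_[(p : ℕ)]),
    ∃ e : ℤ, e ≠ 0 ∧ Odd (places R P e).ncard

/-- `(A(x)² - m)(y^(2b) - n) = k` has a solution in `K` with `y ≠ 0` -/
def Soluble (A : ℤ[X]) (b : ℕ) (m n k : ℤ) (K : Type) [Field K] : Prop :=
  ∃ x y : K, y ≠ 0 ∧ (aeval x A ^ 2 - (m : K)) * (y ^ (2 * b) - (n : K)) = (k : K)

/-- `(A(x)² - m)(y^(2b) - n) = k` has solutions with `y ≠ 0` in `ℝ` and in all the fields `ℚ_p`, and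
`m n ≠ 0`, `m n ≠ k` -/
def Els (A : ℤ[X]) (b : ℕ) (k m n : ℤ) : Prop :=
  Soluble A b m n k ℝ ∧ (∀ (p : ℕ) [Fact p.Prime], Soluble A b m n k ℚ_[p]) ∧ m * n ≠ 0 ∧ m * n ≠ k

/-- the number of the pairs `(m, n)`, `|m| ≤ H`, `|n| ≤ H`, with the property `P` -/
noncomputable def count (H : ℕ) (P : ℤ → ℤ → Prop) : ℕ :=
  ((Finset.Icc (-(H : ℤ)) H ×ˢ Finset.Icc (-(H : ℤ)) H).filter fun p => P p.1 p.2).card

theorem form_ne {K : Type} [Field K] [CharZero K] (A : ℤ[X]) {x w : K} (h : x ≠ 0 ∨ w ≠ 0) :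
    form A x w ≠ 0 ∨ w ^ A.natDegree ≠ 0 := by
  by_cases hw : w = 0
  · subst hw
    rcases Nat.eq_zero_or_pos A.natDegree with h0 | h0
    · right
      rw [h0, pow_zero]
      exact one_ne_zero
    · left
      have hx : x ≠ 0 := by
        rcases h with h | h
        · exact h
        · exact absurd rfl h
      have e : form A x (0 : K) = (A.leadingCoeff : K) * x ^ A.natDegree := by
        unfold form
        rw [Finset.sum_range_succ, Finset.sum_eq_zero, zero_add, Nat.sub_self, pow_zero, mul_one]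
        · rfl
        · intro i hi
          rw [Finset.mem_range] at hi
          rw [zero_pow (by omega), mul_zero]
      rw [e]
      refine mul_ne_zero (Int.cast_ne_zero.2 (leadingCoeff_ne_zero.2 ?_)) (pow_ne_zero _ hx)
      rintro rfl
      rw [natDegree_zero] at h0
      exact lt_irrefl 0 h0
  · exact Or.inr (pow_ne_zero _ hw)

/-- the point of `(X² - m)(Y² - n) = k` -/
noncomputable def Point.quad {A B : ℤ[X]} {m n k : ℤ} {K : Type} [Field K] [CharZero K] (P : Point A B m n k K) :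
    Pool.Agent.H82.ST.Quad m n k K where
  r := form A P.x P.w
  s := P.w ^ A.natDegree
  u := form B P.y P.z
  v := P.z ^ B.natDegree
  hrs := form_ne A P.hxw
  huv := form_ne B P.hyz
  eq := by
    have h := P.eq
    rw [← pow_mul, ← pow_mul, mul_comm A.natDegree 2, mul_comm B.natDegree 2]
    exact h

theorem Point.quad_val {A B : ℤ[X]} {m n k : ℤ} {K : Type} [Field K] [CharZero K] (P : Point A B m n k K) :
    P.quad.val = P.value := by
  unfold Pool.Agent.H82.ST.Quad.val Pool.Agent.H82.ST.val Point.value Point.quad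
  simp only
  rw [← pow_mul, ← pow_mul, mul_comm A.natDegree 2, mul_comm B.natDegree 2]

theorem obstructed {m n k : ℤ} (h : Pool.Agent.H82.ST.Good m n k) : Obstructed m n k := by
  intro A B R P
  by_contra hcon
  push Not at hcon
  refine Pool.Agent.H82.ST.glob h R.quad (fun p => (P p).quad) fun e he => ?_
  have h1 := hcon e he
  rw [Nat.not_odd_iff_even] at h1
  have h2 : Pool.Agent.W313.BMX.ram ⟨R.quad.val, fun p => ((P p).quad).val⟩ e = places R P e := by
    ext v
    cases v with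
    | none =>
      show ¬ Pool.Agent.W313.BMX.Splits R.quad.val (e : ℝ) ↔ ¬ Splits R.value (e : ℝ)
      rw [R.quad_val]
      rfl
    | some p =>
      show ¬ Pool.Agent.W313.BMX.Splits (P p).quad.val (e : ℚ_[(p : ℕ)]) ↔
        ¬ Splits (P p).value (e : ℚ_[(p : ℕ)])
      rw [(P p).quad_val]
      rfl
  rw [h2]
  exact h1

theorem count_eq {H : ℕ} {P : ℤ → ℤ → Prop} (Q : ℤ × ℤ → Prop) [DecidablePred Q]
    (h : ∀ p : ℤ × ℤ, Q p ↔ P p.1 p.2) :
    count H P = ((Pool.Agent.H14Q.box H).filter Q).card := by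
  unfold count Pool.Agent.H14Q.box
  refine congrArg Finset.card ?_
  ext p
  rw [Finset.mem_filter, Finset.mem_filter, h]

theorem count_le {H : ℕ} {P Q : ℤ → ℤ → Prop} (h : ∀ m n, P m n → Q m n) :
    count H P ≤ count H Q := by
  unfold count
  refine Finset.card_le_card fun p hp => ?_
  rw [Finset.mem_filter] at hp ⊢
  exact ⟨hp.1, h _ _ hp.2⟩

theorem count_split {H : ℕ} (P Q : ℤ → ℤ → Prop) :
    count H P ≤ count H (fun m n => P m n ∧ Q m n) + count H (fun m n => ¬ Q m n) := by
  rw [count_eq (fun p : ℤ × ℤ => P p.1 p.2) fun p => Iff.rfl,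
    count_eq (fun p : ℤ × ℤ => P p.1 p.2 ∧ Q p.1 p.2) fun p => Iff.rfl,
    count_eq (fun p : ℤ × ℤ => ¬ Q p.1 p.2) fun p => Iff.rfl]
  refine le_trans (Finset.card_le_card ?_) (Finset.card_union_le _ _)
  intro p hp
  have hp := Finset.mem_filter.1 hp
  rw [Finset.mem_union, Finset.mem_filter, Finset.mem_filter]
  by_cases h : Q p.1 p.2
  · exact Or.inl ⟨hp.1, hp.2, h⟩
  · exact Or.inr ⟨hp.1, h⟩

/-- **Theorem.** (1) There is `C > 0` such that for all integers `k ≠ 0` and `H ≥ 16`, for all but at most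
`C τ(|k|)² H² √(log log H / log H)` of the pairs `(m, n)` with `|m|, |n| ≤ H`, for all polynomials `A`, `B` with
integer coefficients no adelic point of the curve `(A(x)² - m)(B(y)² - n) = k` is orthogonal to the classes
`(A(x)² - m, e)`, `e ≠ 0` an integer.
(2) For every nonconstant `A`, every `b ≥ 1` and `k ≠ 0`, at least `c H²` of the pairs, `c > 0` and
`H ≥ H₀`, satisfy: `(A(x)² - m)(y^(2b) - n) = k` has solutions with `y ≠ 0` in `ℝ` and in all `ℚ_p`, `m n ≠ 0` and
`m n ≠ k`.
(3) Hence the proportion of the pairs as in (1) among the pairs as in (2) tends to `1`. -/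
theorem result :
    (∃ C : ℝ, 0 < C ∧ ∀ (k : ℤ) (H : ℕ), k ≠ 0 → 16 ≤ H →
      (count H (fun m n => ¬ Obstructed m n k) : ℝ) ≤
        C * (k.natAbs.divisors.card : ℝ) ^ 2 * (H : ℝ) ^ 2 *
          Real.sqrt (Real.log (Real.log H) / Real.log H)) ∧
    (∀ (A : ℤ[X]) (b : ℕ) (k : ℤ), 1 ≤ A.natDegree → 1 ≤ b → k ≠ 0 →
      (∃ c : ℝ, 0 < c ∧ ∃ H0 : ℕ, ∀ H : ℕ, H0 ≤ H → c * (H : ℝ) ^ 2 ≤ (count H (Els A b k) : ℝ)) ∧
      Filter.Tendsto (fun H : ℕ =>
        (count H (fun m n => Els A b k m n ∧ Obstructed m n k) : ℝ) / (count H (Els A b k) : ℝ))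
          Filter.atTop (nhds 1)) := by
  obtain ⟨C, hC, hup⟩ := Pool.Agent.H82.ST.up2
  have h3 : ∀ (k : ℤ) (H : ℕ), k ≠ 0 → 16 ≤ H →
      (count H (fun m n => ¬ Obstructed m n k) : ℝ) ≤
        C * (k.natAbs.divisors.card : ℝ) ^ 2 * (H : ℝ) ^ 2 *
          Real.sqrt (Real.log (Real.log H) / Real.log H) := by
    intro k H hk hH
    refine le_trans ?_ (hup k H hk hH)
    have h1 : count H (fun m n => ¬ Obstructed m n k) ≤ count H (fun m n => ¬ Pool.Agent.H82.ST.Good m n k) :=
      count_le fun m n h h' => h (obstructed h')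
    have h2 : count H (fun m n => ¬ Pool.Agent.H82.ST.Good m n k) =
        ((Pool.Agent.H14Q.box H).filter fun p => ¬ Pool.Agent.H82.ST.Good p.1 p.2 k).card :=
      count_eq (fun p : ℤ × ℤ => ¬ Pool.Agent.H82.ST.Good p.1 p.2 k) fun p => Iff.rfl
    rw [h2] at h1
    exact_mod_cast h1
  refine ⟨⟨C, hC, h3⟩, ?_⟩
  intro A b k hA hb hk
  have h4 : ∃ c : ℝ, 0 < c ∧ ∃ H0 : ℕ, ∀ H : ℕ, H0 ≤ H → c * (H : ℝ) ^ 2 ≤ (count H (Els A b k) : ℝ) := by
    obtain ⟨c, hc, H0, h⟩ := Pool.Agent.H82.ST.low2 hA hb hk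
    refine ⟨c, hc, H0, fun H hH => (h H hH).trans (le_of_eq ?_)⟩
    rw [count_eq (P := Els A b k) (fun p : ℤ × ℤ => Pool.Agent.H82.ST.Els A b p.1 p.2 k ∧ p.1 * p.2 ≠ 0 ∧
      p.1 * p.2 ≠ k)]
    intro p
    constructor
    · rintro ⟨⟨h1, h2⟩, h3, h4⟩
      exact ⟨h1, h2, h3, h4⟩
    · rintro ⟨h1, h2, h3, h4⟩
      exact ⟨⟨h1, h2⟩, h3, h4⟩
  refine ⟨h4, ?_⟩
  obtain ⟨c, hc, H0, h4⟩ := h4
  set τ := (k.natAbs.divisors.card : ℝ) with hτ
  have hlim : Filter.Tendsto (fun H : ℕ => 1 - c⁻¹ * C * τ ^ 2 *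
      Real.sqrt (Real.log (Real.log H) / Real.log H)) Filter.atTop (nhds 1) := by
    have e1 : Filter.Tendsto (fun H : ℕ => Real.log (Real.log H) / Real.log H) Filter.atTop
        (nhds 0) := by
      have h5 : Filter.Tendsto (fun x : ℝ => Real.log x / x) Filter.atTop (nhds 0) := by
        have := Real.isLittleO_log_id_atTop.tendsto_div_nhds_zero
        exact this
      exact h5.comp (Real.tendsto_log_atTop.comp tendsto_natCast_atTop_atTop)
    have e2 : Filter.Tendsto (fun H : ℕ => Real.sqrt (Real.log (Real.log H) / Real.log H))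
        Filter.atTop (nhds 0) := by
      have := (Real.continuous_sqrt.tendsto 0).comp e1
      rwa [Real.sqrt_zero] at this
    have e3 := (e2.const_mul (c⁻¹ * C * τ ^ 2)).const_sub 1
    rw [mul_zero, sub_zero] at e3
    exact e3
  refine tendsto_of_tendsto_of_tendsto_of_le_of_le' hlim tendsto_const_nhds ?_ ?_
  · rw [Filter.eventually_atTop]
    refine ⟨max 16 H0, fun H hH => ?_⟩
    have a1 := h3 k H hk (le_trans (le_max_left _ _) hH)
    have a2 := h4 H (le_trans (le_max_right _ _) hH)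
    have hH16 : (16 : ℝ) ≤ H := by exact_mod_cast le_trans (le_max_left _ _) hH
    have a3 : count H (Els A b k) ≤ count H (fun m n => Els A b k m n ∧ Obstructed m n k) +
        count H (fun m n => ¬ Obstructed m n k) := count_split _ _
    have a4 : (count H (Els A b k) : ℝ) ≤
        (count H (fun m n => Els A b k m n ∧ Obstructed m n k) : ℝ) +
        (count H (fun m n => ¬ Obstructed m n k) : ℝ) := by exact_mod_cast a3
    set R := Real.sqrt (Real.log (Real.log H) / Real.log H) with hR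
    have hpos : 0 < (count H (Els A b k) : ℝ) := lt_of_lt_of_le (by positivity) a2
    rw [le_div_iff₀ hpos]
    have a5 : C * τ ^ 2 * (H : ℝ) ^ 2 * R ≤ c⁻¹ * C * τ ^ 2 * R * (count H (Els A b k) : ℝ) := by
      have := mul_le_mul_of_nonneg_left a2
        (by positivity : 0 ≤ c⁻¹ * C * τ ^ 2 * R)
      refine le_trans (le_of_eq ?_) this
      field_simp
    linarith
  · rw [Filter.eventually_atTop]
    refine ⟨0, fun H _ => ?_⟩
    refine div_le_one_of_le₀ ?_ (Nat.cast_nonneg _)
    have : count H (fun m n => Els A b k m n ∧ Obstructed m n k) ≤ count H (Els A b k) :=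
      count_le fun m n h => h.1
    exact_mod_cast this

end Pool.Agent.Results.MP_ab3ecb_nt.CoversOfGenusOne
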