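import Pool.Agent.H82.ST.Up2
import Pool.Agent.H82.ST.Low2

/-!
# The curves `(A(x)² - m B(x))(C(y)² - n D(y)) = k`: orthogonal adelic points

Let `k` be an integer which is not a square, `N ≠ 0`.  For all but at most `C H² √(log log H / log H)` of the pairs
`(m, n)` with `|m|, |n| ≤ H`, for ALL `N`-admissible polynomials `A, B, C, D`, no adelic point of the complete curve
`(A(x)² - m B(x))(C(y)² - n D(y)) = k` is orthogonal to the quaternion algebras `(A(x)² - m B(x), e)`, `e` an integer.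
For fixed coprime `A`, `B` with `deg B < 2 deg A` and `b ≥ 1` a positive proportion of the curves
`(A(x)² - m B(x))(y^{2b} - n) = k` has points over `ℝ` and all `ℚ_p`.

Proof.  If the values of `A² - m B` at an adelic point are orthogonal to all `(⋅, e)`, they are, up to squares in the
completions, equal to one integer `d`, and `d` divides `k N`.  At a prime `q ∤ 2 k N` which divides `m` exactly once
the value is a square unit, and for most `m` there is such a `q` with `(d / q) = -1`, unless `d` is a square; then a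
prime `q` which divides `n` exactly once with `(k / q) = -1` gives a contradiction, since the value there is `k` up to
squares.  The local solubility follows from Weil's bound for character sums and Mason's inequality.
-/

set_option autoImplicit false

namespace Pool.Agent.Results.MP_ab3ecb_nt.PencilsWithSquares

open Polynomial

open scoped Classical

/-- the form `w ^ a A(x / w)`, where `a = deg A` -/
def form {K : Type} [Field K] (A : ℤ[X]) (x w : K) : K :=
  ∑ i ∈ Finset.range (A.natDegree + 1), (A.coeff i : K) * x ^ i * w ^ (A.natDegree - i)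

/-- the form `w ^ (2a) (A² - m B)(x / w)`, where `a = deg A` -/
def factor {K : Type} [Field K] (A B : ℤ[X]) (m : ℤ) (x w : K) : K :=
  form A x w ^ 2 - m * w ^ (2 * A.natDegree - B.natDegree) * form B x w

/-- a point `((x : w), (y : z))` with coordinates in `K` of the closure of the curve
`(A(x)² - m B(x))(C(y)² - n D(y)) = k` in `ℙ¹ × ℙ¹` -/
structure Point (A B C D : ℤ[X]) (m n k : ℤ) (K : Type) [Field K] where
  x : K
  w : K
  y : K
  z : K
  hxw : x ≠ 0 ∨ w ≠ 0
  hyz : y ≠ 0 ∨ z ≠ 0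
  eq : factor A B m x w * factor C D n y z = k * w ^ (2 * A.natDegree) * z ^ (2 * C.natDegree)

/-- the value of the function `A² - m B = k / (C² - n D)` at the point, up to squares: it is the first factor
if this is not `0`, and `k` times the second factor otherwise -/
noncomputable def Point.value {A B C D : ℤ[X]} {m n k : ℤ} {K : Type} [Field K] (P : Point A B C D m n k K) : K :=
  if factor A B m P.x P.w ≠ 0 then factor A B m P.x P.w else k * factor C D n P.y P.z

/-- the Hilbert symbol `(a, b)` of `K` is `1`: the conic `z² = a x² + b y²` has a point over `K` -/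
def Splits {K : Type} [Field K] (a b : K) : Prop :=
  ∃ x y z : K, (x ≠ 0 ∨ y ≠ 0 ∨ z ≠ 0) ∧ z ^ 2 = a * x ^ 2 + b * y ^ 2

instance factPrime (p : Nat.Primes) : Fact (p : ℕ).Prime := ⟨p.2⟩

/-- the places `v` of `ℚ` (`none` is the real place) at which the symbol `(A² - m B, e)_v` at the given adelic
point is `-1` -/
def places {A B C D : ℤ[X]} {m n k : ℤ} (R : Point A B C D m n k ℝ)
    (P : ∀ p : Nat.Primes, Point A B C D m n k ℚ_[(p : ℕ)]) (e : ℤ) : Set (Option Nat.Primes) :=
  {v | match v with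
    | none => ¬ Splits R.value (e : ℝ)
    | some p => ¬ Splits (P p).value (e : ℚ_[(p : ℕ)])}

/-- no adelic point of `(A² - m B)(C² - n D) = k` is orthogonal to all the classes `(A² - m B, e)`, `e` a
nonzero integer -/
def NoOrthogonal (A B C D : ℤ[X]) (m n k : ℤ) : Prop :=
  ∀ (R : Point A B C D m n k ℝ) (P : ∀ p : Nat.Primes, Point A B C D m n k ℚ_[(p : ℕ)]),
    ∃ e : ℤ, e ≠ 0 ∧ Odd (places R P e).ncard

/-- `deg B < 2 deg A`, `deg D < 2 deg C`, and for the primes `q` which do not divide `N`: the leading coefficients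
of `A` and `C` are not divisible by `q`, `A` and `B` have no common zero modulo `q`, `C` and `D` neither -/
def Admissible (N : ℤ) (A B C D : ℤ[X]) : Prop :=
  B.natDegree < 2 * A.natDegree ∧ D.natDegree < 2 * C.natDegree ∧
  ∀ (q : ℕ) [Fact q.Prime], ¬ (q : ℤ) ∣ N → ¬ (q : ℤ) ∣ A.leadingCoeff ∧ ¬ (q : ℤ) ∣ C.leadingCoeff ∧
    (∀ t : ZMod q, aeval t A = 0 → aeval t B ≠ 0) ∧ (∀ t : ZMod q, aeval t C = 0 → aeval t D ≠ 0)

/-- `NoOrthogonal` holds for all admissible polynomials -/
def Obstructed (N k m n : ℤ) : Prop :=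
  ∀ A B C D : ℤ[X], Admissible N A B C D → NoOrthogonal A B C D m n k

/-- `(A(x)² - m B(x))(y^(2b) - n) = k` has a solution in `K` with `y ≠ 0` -/
def Soluble (A B : ℤ[X]) (b : ℕ) (m n k : ℤ) (K : Type) [Field K] : Prop :=
  ∃ x y : K, y ≠ 0 ∧ (aeval x A ^ 2 - (m : K) * aeval x B) * (y ^ (2 * b) - (n : K)) = (k : K)

/-- `(A(x)² - m B(x))(y^(2b) - n) = k` has solutions with `y ≠ 0` in `ℝ` and in all the fields `ℚ_p`, and
`m n ≠ 0`, `m n ≠ k` -/
def Els (A B : ℤ[X]) (b : ℕ) (k m n : ℤ) : Prop :=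
  Soluble A B b m n k ℝ ∧ (∀ (p : ℕ) [Fact p.Prime], Soluble A B b m n k ℚ_[p]) ∧ m * n ≠ 0 ∧ m * n ≠ k

/-- the number of the pairs `(m, n)`, `|m| ≤ H`, `|n| ≤ H`, with the property `P` -/
noncomputable def count (H : ℕ) (P : ℤ → ℤ → Prop) : ℕ :=
  ((Finset.Icc (-(H : ℤ)) H ×ˢ Finset.Icc (-(H : ℤ)) H).filter fun p => P p.1 p.2).card

/-- the point as a point of the library -/
def Point.pt {A B C D : ℤ[X]} {m n k : ℤ} {K : Type} [Field K] (P : Point A B C D m n k K) :
    Pool.Agent.H82.ST.Pt A B C D m n k K where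
  x := P.x
  w := P.w
  y := P.y
  z := P.z
  hxw := P.hxw
  hyz := P.hyz
  eq := P.eq

theorem Point.pt_val {A B C D : ℤ[X]} {m n k : ℤ} {K : Type} [Field K] (P : Point A B C D m n k K) :
    P.pt.val = P.value := by
  unfold Pool.Agent.H82.ST.Pt.val Pool.Agent.H82.ST.vl Point.value
  rfl

theorem obstructed {N m n k : ℤ} (h : Pool.Agent.H82.ST.Good2 N m n k) : Obstructed N k m n := by
  intro A B C D hA R P
  by_contra hcon
  push Not at hcon
  refine Pool.Agent.H82.ST.glob2 h hA R.pt (fun p => (P p).pt) fun e he => ?_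
  have h1 := hcon e he
  rw [Nat.not_odd_iff_even] at h1
  have h2 : Pool.Agent.W313.BMX.ram ⟨R.pt.val, fun p => ((P p).pt).val⟩ e = places R P e := by
    ext v
    cases v with
    | none =>
      show ¬ Pool.Agent.W313.BMX.Splits R.pt.val (e : ℝ) ↔ ¬ Splits R.value (e : ℝ)
      rw [R.pt_val]
      rfl
    | some p =>
      show ¬ Pool.Agent.W313.BMX.Splits (P p).pt.val (e : ℚ_[(p : ℕ)]) ↔
        ¬ Splits (P p).value (e : ℚ_[(p : ℕ)])
      rw [(P p).pt_val]
      rfl
  rw [h2]
  exact h1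

theorem count_eq {H : ℕ} {P : ℤ → ℤ → Prop} (Q : ℤ × ℤ → Prop) [DecidablePred Q]
    (h : ∀ p : ℤ × ℤ, Q p ↔ P p.1 p.2) :
    count H P = ((Pool.Agent.H14Q.box H).filter Q).card := by
  unfold count Pool.Agent.H14Q.box
  refine congrArg Finset.card ?_
  ext p
  rw [Finset.mem_filter, Finset.mem_filter, h]

theorem count_le {H : ℕ} {P Q : ℤ → ℤ → Prop} (h : ∀ m n, P m n → Q m n) :
    count H P ≤ count H Q := by
  unfold count
  refine Finset.card_le_card fun p hp => ?_
  rw [Finset.mem_filter] at hp ⊢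
  exact ⟨hp.1, h _ _ hp.2⟩

theorem count_split {H : ℕ} (P Q : ℤ → ℤ → Prop) :
    count H P ≤ count H (fun m n => P m n ∧ Q m n) + count H (fun m n => ¬ Q m n) := by
  rw [count_eq (fun p : ℤ × ℤ => P p.1 p.2) fun p => Iff.rfl,
    count_eq (fun p : ℤ × ℤ => P p.1 p.2 ∧ Q p.1 p.2) fun p => Iff.rfl,
    count_eq (fun p : ℤ × ℤ => ¬ Q p.1 p.2) fun p => Iff.rfl]
  refine le_trans (Finset.card_le_card ?_) (Finset.card_union_le _ _)
  intro p hp
  have hp := Finset.mem_filter.1 hp
  rw [Finset.mem_union, Finset.mem_filter, Finset.mem_filter]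
  by_cases h : Q p.1 p.2
  · exact Or.inl ⟨hp.1, hp.2, h⟩
  · exact Or.inr ⟨hp.1, h⟩

theorem admissible_pow {A B U V : ℤ[X]} {R : ℤ} (hB : B.natDegree < 2 * A.natDegree) (hUV : U * A + V * B = C R)
    {b : ℕ} (hb : 1 ≤ b) : Admissible (R * A.leadingCoeff) A B (X ^ b) 1 := by
  refine ⟨hB, by rw [natDegree_one, natDegree_X_pow]; omega, ?_⟩
  intro q hq hqN
  have hqR : ¬ (q : ℤ) ∣ R := fun h => hqN (h.mul_right _)
  have hqA : ¬ (q : ℤ) ∣ A.leadingCoeff := fun h => hqN (h.mul_left _)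
  refine ⟨hqA, ?_, ?_, ?_⟩
  · rw [leadingCoeff_X_pow]
    intro h
    have h1 : q ∣ 1 := by exact_mod_cast h
    exact hq.out.one_lt.ne' (Nat.dvd_one.1 h1)
  · intro t hA hB'
    have h1 := congrArg (aeval t) hUV
    rw [map_add, map_mul, map_mul, hA, hB', mul_zero, mul_zero, add_zero, aeval_C] at h1
    apply hqR
    rw [← ZMod.intCast_zmod_eq_zero_iff_dvd]
    exact h1.symm
  · intro t _
    rw [map_one]
    exact one_ne_zero

/-- **Theorem.** (1) For all integers `N ≠ 0` and `k`, `k` not a square, there is `C > 0` such that for `H ≥ 16`,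
for all but at most `C H² √(log log H / log H)` of the pairs `(m, n)` with `|m|, |n| ≤ H`, for all `N`-admissible
`A, B, C, D` no adelic point of `(A² - m B)(C² - n D) = k` is orthogonal to the classes `(A² - m B, e)`.
(2) For all `A, B`, coprime over `ℚ`, `deg B < 2 deg A`, all `b ≥ 1` and `k ≠ 0`, at least `c H²` of the pairs, `c > 0`
and `H ≥ H₀`, satisfy: `(A² - m B)(y^(2b) - n) = k` has solutions with `y ≠ 0` in `ℝ` and in all `ℚ_p`, `m n ≠ 0`,
`m n ≠ k`.  (3) If `k` is not a square, among these pairs the proportion of those for which no adelic point of this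
curve is orthogonal to the classes tends to `1`. -/
theorem result :
    (∀ N k : ℤ, N ≠ 0 → ¬ IsSquare k → ∃ C : ℝ, 0 < C ∧ ∀ H : ℕ, 16 ≤ H →
      (count H (fun m n => ¬ Obstructed N k m n) : ℝ) ≤
        C * (H : ℝ) ^ 2 * Real.sqrt (Real.log (Real.log H) / Real.log H)) ∧
    (∀ (A B : ℤ[X]) (b : ℕ) (k : ℤ), 1 ≤ A.natDegree → B.natDegree < 2 * A.natDegree →
      IsCoprime (A.map (Int.castRingHom ℚ)) (B.map (Int.castRingHom ℚ)) → 1 ≤ b → k ≠ 0 →
      (∃ c : ℝ, 0 < c ∧ ∃ H0 : ℕ, ∀ H : ℕ, H0 ≤ H → c * (H : ℝ) ^ 2 ≤ (count H (Els A B b k) : ℝ)) ∧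
      (¬ IsSquare k → Filter.Tendsto (fun H : ℕ =>
        (count H (fun m n => Els A B b k m n ∧ NoOrthogonal A B (X ^ b) 1 m n k) : ℝ) /
          (count H (Els A B b k) : ℝ)) Filter.atTop (nhds 1))) := by
  have hup : ∀ N k : ℤ, N ≠ 0 → ¬ IsSquare k → ∃ C : ℝ, 0 < C ∧ ∀ H : ℕ, 16 ≤ H →
      (count H (fun m n => ¬ Obstructed N k m n) : ℝ) ≤
        C * (H : ℝ) ^ 2 * Real.sqrt (Real.log (Real.log H) / Real.log H) := by
    intro N k hN hk
    obtain ⟨C, hC, hup⟩ := Pool.Agent.H82.ST.up3 hN hk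
    refine ⟨C, hC, fun H hH => le_trans ?_ (hup H hH)⟩
    have h1 : count H (fun m n => ¬ Obstructed N k m n) ≤
        count H (fun m n => ¬ Pool.Agent.H82.ST.Good2 N m n k) :=
      count_le fun m n h h' => h (obstructed h')
    have h2 : count H (fun m n => ¬ Pool.Agent.H82.ST.Good2 N m n k) =
        ((Pool.Agent.H14Q.box H).filter fun p => ¬ Pool.Agent.H82.ST.Good2 N p.1 p.2 k).card :=
      count_eq (fun p : ℤ × ℤ => ¬ Pool.Agent.H82.ST.Good2 N p.1 p.2 k) fun p => Iff.rfl
    rw [h2] at h1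
    exact_mod_cast h1
  refine ⟨hup, ?_⟩
  intro A B b k hA hB hcop hb hk
  have h4 : ∃ c : ℝ, 0 < c ∧ ∃ H0 : ℕ, ∀ H : ℕ, H0 ≤ H → c * (H : ℝ) ^ 2 ≤ (count H (Els A B b k) : ℝ) := by
    obtain ⟨c, hc, H0, h⟩ := Pool.Agent.H82.ST.low3 hA hB hcop hb hk
    refine ⟨c, hc, H0, fun H hH => (h H hH).trans (le_of_eq ?_)⟩
    rw [count_eq (P := Els A B b k) (fun p : ℤ × ℤ => Pool.Agent.H82.ST.Els2 A B b p.1 p.2 k ∧ p.1 * p.2 ≠ 0 ∧
      p.1 * p.2 ≠ k)]
    have hs : ∀ (m n : ℤ) (K : Type) [Field K],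
        Pool.Agent.H82.ST.Sol2 (A ^ 2 - C m * B) b n k K ↔ Soluble A B b m n k K := by
      intro m n K _
      unfold Pool.Agent.H82.ST.Sol2 Soluble Pool.Agent.H82.ST.ev
      simp only [map_sub, map_pow, map_mul, eq_intCast, map_intCast]
    intro p
    constructor
    · rintro ⟨⟨h1, h2⟩, h3, h4⟩
      exact ⟨(hs _ _ _).1 h1, fun q _ => (hs _ _ _).1 (h2 q), h3, h4⟩
    · rintro ⟨h1, h2, h3, h4⟩
      exact ⟨⟨(hs _ _ _).2 h1, fun q _ => (hs _ _ _).2 (h2 q)⟩, h3, h4⟩
  refine ⟨h4, fun hsq => ?_⟩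
  obtain ⟨c, hc, H0, h4⟩ := h4
  obtain ⟨r, U, V, hr, hUV⟩ := Pool.Agent.H82.ST.bezZ hcop
  have hA0 : A ≠ 0 := by
    rintro rfl
    rw [natDegree_zero] at hA
    omega
  obtain ⟨K, hK, h3⟩ := hup (r * A.leadingCoeff) k (mul_ne_zero hr (leadingCoeff_ne_zero.2 hA0)) hsq
  have hadm := admissible_pow (R := r) hB hUV hb
  have h3' : ∀ H : ℕ, 16 ≤ H → (count H (fun m n => ¬ NoOrthogonal A B (X ^ b) 1 m n k) : ℝ) ≤
        K * (H : ℝ) ^ 2 * Real.sqrt (Real.log (Real.log H) / Real.log H) := by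
    intro H hH
    refine le_trans ?_ (h3 H hH)
    have : count H (fun m n => ¬ NoOrthogonal A B (X ^ b) 1 m n k) ≤
        count H (fun m n => ¬ Obstructed (r * A.leadingCoeff) k m n) :=
      count_le fun m n h h' => h (h' A B (X ^ b) 1 hadm)
    exact_mod_cast this
  have hlim : Filter.Tendsto (fun H : ℕ => 1 - c⁻¹ * K *
      Real.sqrt (Real.log (Real.log H) / Real.log H)) Filter.atTop (nhds 1) := by
    have e1 : Filter.Tendsto (fun H : ℕ => Real.log (Real.log H) / Real.log H) Filter.atTop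
        (nhds 0) := by
      have h5 : Filter.Tendsto (fun x : ℝ => Real.log x / x) Filter.atTop (nhds 0) := by
        have := Real.isLittleO_log_id_atTop.tendsto_div_nhds_zero
        exact this
      exact h5.comp (Real.tendsto_log_atTop.comp tendsto_natCast_atTop_atTop)
    have e2 : Filter.Tendsto (fun H : ℕ => Real.sqrt (Real.log (Real.log H) / Real.log H))
        Filter.atTop (nhds 0) := by
      have := (Real.continuous_sqrt.tendsto 0).comp e1
      rwa [Real.sqrt_zero] at this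
    have e3 := (e2.const_mul (c⁻¹ * K)).const_sub 1
    rw [mul_zero, sub_zero] at e3
    exact e3
  refine tendsto_of_tendsto_of_tendsto_of_le_of_le' hlim tendsto_const_nhds ?_ ?_
  · rw [Filter.eventually_atTop]
    refine ⟨max 16 H0, fun H hH => ?_⟩
    have a1 := h3' H (le_trans (le_max_left _ _) hH)
    have a2 := h4 H (le_trans (le_max_right _ _) hH)
    have hH16 : (16 : ℝ) ≤ H := by exact_mod_cast le_trans (le_max_left _ _) hH
    have a3 : count H (Els A B b k) ≤ count H (fun m n => Els A B b k m n ∧ NoOrthogonal A B (X ^ b) 1 m n k) +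
        count H (fun m n => ¬ NoOrthogonal A B (X ^ b) 1 m n k) := count_split _ _
    have a4 : (count H (Els A B b k) : ℝ) ≤
        (count H (fun m n => Els A B b k m n ∧ NoOrthogonal A B (X ^ b) 1 m n k) : ℝ) +
        (count H (fun m n => ¬ NoOrthogonal A B (X ^ b) 1 m n k) : ℝ) := by exact_mod_cast a3
    set R := Real.sqrt (Real.log (Real.log H) / Real.log H) with hR
    have hpos : 0 < (count H (Els A B b k) : ℝ) := lt_of_lt_of_le (by positivity) a2
    rw [le_div_iff₀ hpos]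
    have a5 : K * (H : ℝ) ^ 2 * R ≤ c⁻¹ * K * R * (count H (Els A B b k) : ℝ) := by
      have := mul_le_mul_of_nonneg_left a2
        (by positivity : 0 ≤ c⁻¹ * K * R)
      refine le_trans (le_of_eq ?_) this
      field_simp
    linarith
  · rw [Filter.eventually_atTop]
    refine ⟨0, fun H _ => ?_⟩
    refine div_le_one_of_le₀ ?_ (Nat.cast_nonneg _)
    have : count H (fun m n => Els A B b k m n ∧ NoOrthogonal A B (X ^ b) 1 m n k) ≤ count H (Els A B b k) :=
      count_le fun m n h => h.1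
    exact_mod_cast this

end Pool.Agent.Results.MP_ab3ecb_nt.PencilsWithSquares
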