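import Pool.Agent.H14N.AllH
import Pool.Agent.H14P.Desc2

/-!
# The components over two of the adelic points surviving 2-power descent, for at least 20.97% of the
# hyperelliptic curves of odd degree near every given one, and infinitely many number fields at once

Let `F` be a number field and `g ≥ 1`. We consider all the curves `C : y² = f(x)` of genus `g` over `F`,
`f` monic of degree `2 g + 1` with integral coefficients, `a_{2 g} = 0`, and minimal, ordered by height.

Theorem. Let `f₀` be ANY of these polynomials, `n` ANY odd number (or any number at all, if `y² = f₀(x)` is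
regular over `2`) and `ε > 0`. There are `N` and a union `R` of residue classes modulo `N`, inside the class
of `f₀` modulo `n`, such that the family of the `f` in `R` whose discriminant is not divisible by the square
of a prime which does not divide `N` contains a positive proportion of all curves, and the following holds,
if a finite extension `M` of `F` is called admissible for `f` when it is Galois of 2-power degree, the primes
over `N` and the real places of `F` split completely in `M` and `f` is irreducible modulo the primes of `F`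
which are ramified in `M` (for instance `M = F`):

* for every member `f` of the family there are infinitely many prime numbers `l` such that `M(√l)` is
  admissible for every admissible `M`;
* for all large heights the proportion of those members `f` of the family for which the following is true
  for EVERY admissible `M` is at least `C_{2,0} - ε`, `C_{2,0} = ∏_{j ≥ 0} (1 + 2^{-j})^{-1} = 0.2097…`: if an
  adelic point `(P_v)` of `C` over `M` survives the descents by the `2 ^ k`-coverings, for all `k`, then for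
  all the places `w` of `M` over two `P_w` is the point at infinity, which is a rational point.

The points of `C(𝔸_M)_•` which are orthogonal to the Brauer group of `C` survive all descents by
abelian coverings (Stoll), in particular by the `2 ^ k`-coverings, which are the pull-backs of the
`2 ^ k`-coverings of the Jacobian. So for these curves and fields the components over two of all the
points in `C(𝔸_M)_•^Br` are rational: the assertion of Stoll's conjecture is true for the projections to
the product of the `C(M_w)`, `w ∣ 2`. In particular `C(M)` consists of the point at infinity.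

The proof. As for MP_821da1_nt.NearEveryCurve the Jacobian `J` satisfies `2 J(M) = J(M)` and
`Ш(J / M)[2^∞] = 0` (project JN). A `2 ^ k`-covering with points everywhere is therefore the trivial one
(`H14P/Desc.lean`), and a point which lifts to it over `M_w` is divisible by `2 ^ k` in `J(M_w)`. No
point of the affine curve over `M_w = F_v`, `w ∣ 2`, is divisible by all powers of two in `J(M_w)`, because
`y² = f(x)` is regular over two (`H14P/Loc3.lean`).
-/

set_option autoImplicit false
set_option linter.all false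

namespace Pool.Agent.Results.MP_ab3ecb_nt.TwoAdicPlacesNearEveryCurve

open NumberField IsDedekindDomain Polynomial
open Pool.Agent.N874.Jac (CoordRing J mapJ Cochain Cocycle)
open scoped Classical IntermediateField Pointwise

section family

variable (F : Type) [Field F] [NumberField F] (g : ℕ)

/-- All curves `y² = f(x)` with `f` monic of degree `2 g + 1`, with integral coefficients `a_j`,
`a_{2 g} = 0`, without multiple roots, and minimal: no nonzero prime ideal `𝔭` satisfies
`𝔭 ^ (2 (2 g + 1 - j)) ∣ a_j` for all `j`. -/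
def Curves : Set (𝓞 F)[X] :=
  {f | f.Monic ∧ f.natDegree = 2 * g + 1 ∧ f.coeff (2 * g) = 0 ∧
    (f.map (algebraMap (𝓞 F) F)).Separable ∧
    ∀ 𝔭 : Ideal (𝓞 F), 𝔭.IsPrime → 𝔭 ≠ ⊥ →
      ¬ ∀ j ≤ 2 * g, f.coeff j ∈ 𝔭 ^ (2 * (2 * g + 1 - j))}

/-- The curves of height at most `B`: all the conjugates of the coefficient `a_j` are at
most `B ^ (2 g + 1 - j)` in absolute value, for all `j`. -/
def UpTo (B : ℝ) : Set (𝓞 F)[X] :=
  {f ∈ Curves F g | ∀ j ≤ 2 * g, ∀ σ : F →+* ℂ,
    ‖σ ((f.coeff j : 𝓞 F) : F)‖ ≤ B ^ (2 * g + 1 - j)}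

variable {F}

/-- `y² = f(x)` is regular over two: `f` is not congruent to a square modulo `𝔪²` for any maximal ideal
`𝔪` of the polynomial ring which contains `2`. -/
def RegularOverTwo (f : (𝓞 F)[X]) : Prop :=
  ∀ 𝔪 : Ideal (𝓞 F)[X], 𝔪.IsMaximal → (2 : (𝓞 F)[X]) ∈ 𝔪 → ∀ V : (𝓞 F)[X], f - V ^ 2 ∉ 𝔪 ^ 2

/-- `R` is a union of residue classes modulo `N`. -/
def Periodic (N : ℕ) (R : Set (𝓞 F)[X]) : Prop :=
  ∀ f f' : (𝓞 F)[X], f ∈ R → (∀ j, (N : 𝓞 F) ∣ f'.coeff j - f.coeff j) → f' ∈ R

/-- The residue class of `f₀` modulo `n`. -/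
def ClassOf (n : ℕ) (f₀ : (𝓞 F)[X]) : Set (𝓞 F)[X] :=
  {f | ∀ j, (n : 𝓞 F) ∣ f.coeff j - f₀.coeff j}

/-- The discriminant of `f` (up to sign): the resultant of `f` and its derivative. -/
noncomputable def disc (f : (𝓞 F)[X]) : 𝓞 F := f.resultant (derivative f) (2 * g + 1) (2 * g)

/-- The family given by `N` and `R`: the monic polynomials of degree `2 g + 1` with `a_{2 g} = 0` in `R`
whose discriminant is not zero and is not divisible by the square of a prime which does not divide `N`. -/
def Family (N : ℕ) (R : Set (𝓞 F)[X]) : Set (𝓞 F)[X] :=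
  {f | f.Monic ∧ f.natDegree = 2 * g + 1 ∧ f.coeff (2 * g) = 0 ∧ f ∈ R ∧ disc g f ≠ 0 ∧
    ∀ v : HeightOneSpectrum (𝓞 F), (N : 𝓞 F) ∉ v.asIdeal → disc g f ∉ v.asIdeal ^ 2}

end family

section admissible

variable (F : Type) {M : Type} [Field F] [NumberField F] [Field M] [NumberField M] [Algebra F M]

/-- The decomposition group of the prime `w` of `M` over `F` is trivial. -/
def SplitAt (w : HeightOneSpectrum (𝓞 M)) : Prop :=
  MulAction.stabilizer Gal(M/F) w.asIdeal = ⊥

/-- The inertia group of the prime `w` of `M` over `F` is trivial. -/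
def UnramifiedAt (w : HeightOneSpectrum (𝓞 M)) : Prop :=
  w.asIdeal.inertia Gal(M/F) = ⊥

variable (M)

/-- The extension `M` of `F` is admissible for the curve `y² = f(x)` with respect to `N`: it is Galois of
2-power degree; the decomposition groups of the primes of `M` over `N` are trivial; every embedding of `F`
in `ℝ` extends to `M`; `f` is irreducible modulo the primes of `F` below the primes of `M` with nontrivial
inertia group. -/
structure Admissible (N : ℕ) (f : (𝓞 F)[X]) : Prop where
  galois : IsGalois F M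
  degree : ∃ n : ℕ, Module.finrank F M = 2 ^ n
  split : ∀ w : HeightOneSpectrum (𝓞 M), (N : 𝓞 M) ∈ w.asIdeal → SplitAt F w
  real : ∀ σ : F →+* ℝ, ∃ ρ : M →+* ℝ, ρ.comp (algebraMap F M) = σ
  ramified : ∀ w : HeightOneSpectrum (𝓞 M), ¬ UnramifiedAt F w →
    Irreducible (f.map (Ideal.Quotient.mk (w.under (𝓞 F)).asIdeal))

/-- The prime numbers `l` such that `M(√l)` is admissible for every admissible field `M`. -/
def Steps (N : ℕ) (f : (𝓞 F)[X]) : Set ℕ := {l : ℕ | l.Prime ∧
  ∀ (M M' : Type) [Field M] [NumberField M] [Field M'] [NumberField M'] [Algebra F M]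
    [Algebra M M'] [Algebra F M'] [IsScalarTower F M M'] (x : M'),
    x ^ 2 = (l : M') → M⟮x⟯ = ⊤ → Admissible F M N f → Admissible F M' N f}

end admissible

section points

variable {K : Type} [Field K] (f : K[X]) (L : Type) [Field L] [Algebra K L]

/-- The points of the smooth projective model of `y² = f(x)`, `f` of odd degree, over the extension `L`
of `K`: the pairs `(a, b)` with `b² = f(a)`, and the point at infinity, `none`. -/
abbrev Points : Type :=
  Option {p : L × L // p.2 ^ 2 = (f.map (algebraMap K L)).eval p.1}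

/-- The polynomials in `x`, as functions on the affine curve. -/
noncomputable def polyFun : L[X] →+* CoordRing f L := AdjoinRoot.of _

/-- The function `y` on the affine curve. -/
noncomputable def yFun : CoordRing f L := AdjoinRoot.root _

variable {L}

/-- The ideal `(x - a, y - b)` of the affine coordinate ring over `L`. -/
noncomputable def pointIdeal (a b : L) : Ideal (CoordRing f L) :=
  Ideal.span {polyFun f L (X - C a), yFun f L - polyFun f L (C b)}

variable {f}

/-- `c ∈ Pic(A)` is the class of the ideal `I` of the ring `A`: the invertible module `c` is isomorphic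
to `I`. -/
def IsClassOfIdeal {A : Type} [CommRing A] (c : CommRing.Pic A) (I : Ideal A) : Prop :=
  Nonempty (I ≃ₗ[A] c)

/-- `c ∈ J(L) = Pic(L[x, y] / (y² - f))` is the class of the point: it is the trivial class for the point
at infinity, and the class of the ideal `(x - a, y - b)` for the point `(a, b)`. -/
def IsClass (c : J f L) (P : Points f L) : Prop :=
  (P = none ∧ c = 1) ∨ ∃ p, P = some p ∧ IsClassOfIdeal c (pointIdeal f p.1.1 p.1.2)

end points

section descent

variable {K : Type} [Field K] {f : K[X]}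

/-- All the values of `c`, in the group `J(Ω)`, written multiplicatively, are killed by `n`. -/
def KilledBy {Ω G : Type} [Field Ω] [Algebra K Ω] (n : ℕ) (c : G → J f Ω) : Prop :=
  ∀ σ, c σ ^ n = 1

/-- `Q ^ n = S` in `J(Ω')`, where `S ∈ J(E)`. -/
def IsRootOf {E Ω' : Type} [Field E] [Field Ω'] [Algebra E Ω'] [Algebra K E] [Algebra K Ω']
    [IsScalarTower K E Ω'] (n : ℕ) (Q : J f Ω') (S : J f E) : Prop :=
  Q ^ n = mapJ f (IsScalarTower.toAlgHom K E Ω') S

/-- The class `S ∈ J(E)` lifts to the `n`-covering given by the cocycle `c` of the group of the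
automorphisms of `Ω` over `K`, with values in `J(Ω)`: for an embedding `ι : Ω → Ω'` there is `Q ∈ J(Ω')`
such that `Q ^ n = S` and `τ Q / Q = c(τ|Ω)` for all automorphisms `τ` of `Ω'` over `E`. -/
def LiftsIn {Ω : Type} [Field Ω] [Algebra K Ω] (n : ℕ) (c : (Ω ≃ₐ[K] Ω) → J f Ω) (E Ω' : Type)
    [Field E] [Field Ω'] [Algebra E Ω'] [Algebra K E] [Algebra K Ω'] [IsScalarTower K E Ω']
    (S : J f E) : Prop :=
  ∃ (ι : Ω →ₐ[K] Ω') (Q : J f Ω'), IsRootOf n Q S ∧
    ∀ (τ : Ω' ≃ₐ[E] Ω') (σ : Ω ≃ₐ[K] Ω), (∀ x : Ω, τ (ι x) = ι (σ x)) →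
      mapJ f ι (c σ) = mapJ f (τ.toAlgHom.restrictScalars K) Q / Q

/-- The point `P` over the extension `E` of `K` lifts to the `n`-covering given by the cocycle `c` with
values in the elements of `J(K^sep)` killed by `n`. -/
def Lifts (n : ℕ) (c : Cochain f) (E : Type) [Field E] [Algebra K E] (P : Points f E) : Prop :=
  ∃ S : J f E, IsClass S P ∧ LiftsIn n c E (SeparableClosure E) S

/-- Some point over `ℝ` lifts to the `n`-covering, for the embedding `ρ` of `K` in the real numbers. -/
def SomeLiftsReal (n : ℕ) (c : Cochain f) (ρ : K →+* ℝ) : Prop :=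
  letI := ρ.toAlgebra; ∃ R : Points f ℝ, Lifts n c ℝ R

variable [NumberField K]

/-- The adelic points. -/
abbrev AdelicPoint (f : K[X]) : Type :=
  ∀ v : HeightOneSpectrum (𝓞 K), Points f (v.adicCompletion K)

/-- All the `P_v`, `v` finite, lift to the `n`-covering. -/
def AllLift (n : ℕ) (c : Cochain f) (P : AdelicPoint f) : Prop :=
  ∀ v : HeightOneSpectrum (𝓞 K), Lifts n c (v.adicCompletion K) (P v)

/-- The adelic point `(P_v)` survives the descent by the `n`-coverings: there is a continuous cocycle
with values in the elements killed by `n` such that all the `P_v`, `v` finite, lift to the covering given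
by the cocycle, and for every real embedding there is a point over `ℝ` which lifts to it. -/
def Survives (n : ℕ) (P : AdelicPoint f) : Prop :=
  ∃ c : Cochain f, Cocycle c ∧ KilledBy n c ∧ AllLift n c P ∧ ∀ ρ, SomeLiftsReal n c ρ

/-- If an adelic point of `y² = f(x)` over `K` survives the descents by the `2 ^ k`-coverings for all `k`,
then its components at the places over two are the point at infinity. -/
def OnlyInfinityAtTwo (f : K[X]) : Prop :=
  ∀ P : AdelicPoint f, (∀ k : ℕ, Survives (2 ^ k) P) →
    ∀ w : HeightOneSpectrum (𝓞 K), (2 : 𝓞 K) ∈ w.asIdeal → P w = none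

end descent

/-- The polynomial `f` over the extension `M` of `F`. -/
noncomputable def polyOver {F : Type} [Field F] [NumberField F] (f : (𝓞 F)[X]) (M : Type) [Field M]
    [Algebra F M] : M[X] :=
  (f.map (algebraMap (𝓞 F) F)).map (algebraMap F M)

/-- The constant `C_{2,0} = ∏_{j ≥ 0} (1 + 2^{-j})^{-1} = 0.2097…` of Poonen and Rains. -/
noncomputable def poonenRains : ℝ := ∏' j : ℕ, (1 + (2 : ℝ)⁻¹ ^ j)⁻¹

theorem adm_iff (F M : Type) [Field F] [NumberField F] [Field M] [NumberField M] [Algebra F M]
    (N : ℕ) (f : (𝓞 F)[X]) : Pool.Agent.H18N.AdmW F M N f ↔ Admissible F M N f :=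
  ⟨fun h => ⟨h.galois, h.deg, h.split, h.real, h.ram⟩,
    fun h => ⟨h.galois, h.degree, h.split, h.real, h.ramified⟩⟩

/-- The components of the surviving points are divisible. -/
theorem div_of {K : Type} [Field K] [NumberField K] {f : K[X]} (hm : f.Monic) (hs : f.Separable)
    (ho : Odd f.natDegree) (hdiv : Pool.Agent.N874.Jac.UniquelyTwoDivisible f)
    (hsha : Pool.Agent.N874.Jac.ShaTwoTrivialReal f (𝓞 K)) {P : AdelicPoint f} {n : ℕ}
    (h : Survives (2 ^ n) P) (v : HeightOneSpectrum (𝓞 K)) :
    ∃ S T : J f (v.adicCompletion K), IsClass S (P v) ∧ T ^ (2 ^ n) = S := by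
  obtain ⟨c, hc, hc1, hv, hr⟩ := h
  have hcob : Pool.Agent.N874.Jac.Coboundary c := by
    refine hsha c n hc (fun v => ?_) (fun ρ => ?_) ?_
    · obtain ⟨S, -, ι, Q, -, h3⟩ := hv v
      exact ⟨ι, Q, h3⟩
    · obtain ⟨R, S, -, ι, Q, -, h3⟩ := hr ρ
      exact ⟨ι, Q, h3⟩
    · refine ⟨1, fun σ => ?_⟩
      show c σ ^ 2 ^ n = _
      rw [hc1 σ, map_one, div_one]
  obtain ⟨S, h1, ι, Q, h2, h3⟩ := hv v
  have hg : Pool.Agent.Y160.SE.Good 2 (-1 : K) f :=
    Pool.Agent.N106.JB.good2 two_ne_zero hm hs ho
  obtain ⟨T, hT⟩ := Pool.Agent.H14P.Desc.div_local (E := v.adicCompletion K) hg hdiv.surjective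
    (c := c) hcob hc1 ι Q S h2 h3
  exact ⟨S, T, h1, hT⟩

theorem only_of {F : Type} [Field F] [NumberField F] {f : (𝓞 F)[X]} {M : Type} [Field M]
    [NumberField M] [Algebra F M] (hm : f.Monic) (hs : (f.map (algebraMap (𝓞 F) F)).Separable)
    (ho : Odd f.natDegree) (h : Pool.Agent.H14P.AllH F M f) :
    OnlyInfinityAtTwo (polyOver f M) := by
  have e : Pool.Agent.N783.PF.fF (Pool.Agent.H14F.up M f) = polyOver f M :=
    Pool.Agent.H14F.fF_up f
  obtain ⟨h1, h2, -, h4⟩ := h
  rw [e] at h1 h2 h4
  have hmM : (polyOver f M).Monic := (hm.map _).map _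
  have hsM : (polyOver f M).Separable := hs.map
  have hoM : Odd (polyOver f M).natDegree := by
    rw [polyOver, natDegree_map, hm.natDegree_map]
    exact ho
  intro P hP w hw
  cases hPw : P w with
  | none => rfl
  | some p =>
    exfalso
    haveI : CharZero (w.adicCompletion M) :=
      charZero_of_injective_algebraMap (algebraMap M (w.adicCompletion M)).injective
    refine h4 w hw p.1.1 p.1.2 p.2 fun n => ?_
    obtain ⟨S, T, h5, h6⟩ := div_of hmM hsM hoM h1 h2 (hP (n + 1)) w
    rw [hPw] at h5
    rcases h5 with ⟨h5, -⟩ | ⟨p', hp', h5⟩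
    · exact absurd h5 (Option.some_ne_none p)
    obtain rfl := Option.some.inj hp'
    exact Pool.Agent.H14P.Desc.ideal_pt two_ne_zero (by rw [natDegree_map]; exact hoM)
      (hsM.map).squarefree h5 h6

/-- **Near every curve.** Let `F` be a number field, `g ≥ 1`, `f₀` one of the curves, `n` an odd number (or
any positive number, if `y² = f₀(x)` is regular over two) and `ε > 0`. There are `N`, a union `R` of residue
classes modulo `N`, contained in the class of `f₀` modulo `n`, and `c > 0` such that all members of the family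
of `N` and `R` are minimal and have infinitely many prime numbers `l` for which `M(√l)` is admissible for
every admissible `M`, and for all large `B` at least `c` times as many as all curves of height at most `B`
are in the family, and the proportion of those in the family for which for EVERY admissible `M` the
components over two of all the adelic points over `M` which survive all the descents by `2 ^ k`-coverings
are the point at infinity is at least `C_{2,0} - ε`. -/
theorem result (F : Type) [Field F] [NumberField F] (g : ℕ) (hg : 1 ≤ g) (f₀ : (𝓞 F)[X])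
    (hf₀ : f₀ ∈ Curves F g) (n : ℕ) (hn : 0 < n) (hreg : Odd n ∨ RegularOverTwo f₀)
    (ε : ℝ) (hε : 0 < ε) :
    ∃ (N : ℕ) (R : Set (𝓞 F)[X]), 0 < N ∧ Periodic N R ∧ R ⊆ ClassOf n f₀ ∧
      Family g N R ⊆ Curves F g ∧ (∀ f ∈ Family g N R, (Steps F N f).Infinite) ∧
      ∃ c : ℝ, 0 < c ∧ ∃ B₀ : ℝ, ∀ B : ℝ, B₀ ≤ B →
        (UpTo F g B).Finite ∧ 0 < (UpTo F g B).ncard ∧
        c * ((UpTo F g B).ncard : ℝ) ≤ ((UpTo F g B ∩ Family g N R).ncard : ℝ) ∧
        (poonenRains - ε) * ((UpTo F g B ∩ Family g N R).ncard : ℝ) ≤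
          (({f ∈ UpTo F g B ∩ Family g N R | ∀ (M : Type) [Field M] [NumberField M] [Algebra F M],
            Admissible F M N f → OnlyInfinityAtTwo (polyOver f M)}).ncard : ℝ) := by
  obtain ⟨hm, hd, ht, hs, hmin⟩ := hf₀
  obtain ⟨N, R, hN, h2N, hper, hcl, hrg, hfam, c, Y₀, hc, hY⟩ := Pool.Agent.H14N.nearP g F hg n hn f₀
    hm hd ht hmin hreg ε hε
  have hFam : ∀ f, Pool.Agent.H18N.Per.InFm g N R f ↔ f ∈ Family g N R := fun f =>
    ⟨fun h => ⟨h.mon, h.deg, h.tr, h.mem, h.ne, h.sqf⟩,
      fun h => ⟨h.1, h.2.1, h.2.2.1, h.2.2.2.1, h.2.2.2.2.1, h.2.2.2.2.2⟩⟩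
  have hsubC : Family g N R ⊆ Curves F g := by
    intro f hf
    obtain ⟨h1, h2, h3⟩ := hfam f ((hFam f).2 hf)
    exact ⟨hf.1, hf.2.1, hf.2.2.1, h2.separable, h1⟩
  have hpr : Pool.Agent.H68K.PR.pr2 0 = poonenRains := by
    show (∏' j : ℕ, (1 + (2 : ℝ)⁻¹ ^ j)⁻¹) * ∏ i ∈ Finset.range 0, (2 / ((2 : ℝ) ^ (i + 1) - 1)) = _
    rw [Finset.prod_range_zero, mul_one]
    rfl
  refine ⟨N, R, hN, ?_, ?_, hsubC, ?_, c, hc, Y₀, fun B hB => ?_⟩
  · intro f f' hf h
    exact hper f f' hf fun j => Ideal.mem_span_singleton.2 (h j)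
  · intro f hf j
    exact Ideal.mem_span_singleton.1 (hcl f hf j)
  · intro f hf
    obtain ⟨-, -, h3⟩ := hfam f ((hFam f).2 hf)
    refine h3.mono ?_
    rintro l ⟨hl, h⟩
    exact ⟨hl, fun M M' _ _ _ _ _ _ _ _ x hx htop hM =>
      (adm_iff F M' N f).1 (h M M' x hx htop ((adm_iff F M N f).2 hM))⟩
  obtain ⟨hfin, h7⟩ := hY B
  obtain ⟨h8, h9, h10⟩ := h7 hB
  have hsub : UpTo F g B ⊆ {f : (𝓞 F)[X] | Pool.Agent.H18G.HtR g B f} := by
    rintro f ⟨⟨h1, h2, h3, -, -⟩, h4⟩
    exact ⟨h1, h2, h3, h4⟩
  have hfinU : (UpTo F g B).Finite := hfin.subset hsub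
  have hcard : ((UpTo F g B).ncard : ℝ) ≤
      ({f : (𝓞 F)[X] | Pool.Agent.H18G.HtR g B f}.ncard : ℝ) := by
    exact_mod_cast Set.ncard_le_ncard hsub hfin
  have hGe : {f : (𝓞 F)[X] | Pool.Agent.H18G.HtR g B f ∧ Pool.Agent.H18N.Per.InFm g N R f} =
      UpTo F g B ∩ Family g N R := by
    ext f
    constructor
    · rintro ⟨h5, h6⟩
      exact ⟨⟨hsubC ((hFam f).1 h6), h5.ht⟩, (hFam f).1 h6⟩
    · rintro ⟨h5, h6⟩
      exact ⟨hsub h5, (hFam f).2 h6⟩
  rw [hGe] at h8 h9 h10
  set G : Set (𝓞 F)[X] := UpTo F g B ∩ Family g N R with hG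
  have hGfin : G.Finite := hfinU.subset Set.inter_subset_left
  have hpos : 0 < (UpTo F g B).ncard :=
    h8.trans_le (Set.ncard_le_ncard Set.inter_subset_left hfinU)
  refine ⟨hfinU, hpos, (mul_le_mul_of_nonneg_left hcard hc.le).trans h9, ?_⟩
  set A : Set (𝓞 F)[X] := {f ∈ G | ∀ (M : Type) [Field M] [NumberField M] [Algebra F M],
    Admissible F M N f → OnlyInfinityAtTwo (polyOver f M)} with hA
  set Z : Set (𝓞 F)[X] := {f : (𝓞 F)[X] | Pool.Agent.H18G.HtR g B f ∧
    Pool.Agent.H18N.Per.InFm g N R f ∧ ¬ Pool.Agent.H18N.Per.BdA F N 0 f} with hZ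
  have h11 : G ⊆ A ∪ Z := by
    intro f hf
    have hI : Pool.Agent.H18N.Per.InFm g N R f := (hFam f).2 hf.2
    by_cases hb : Pool.Agent.H18N.Per.BdA F N 0 f
    · refine Or.inl ⟨hf, fun M _ _ _ hM => ?_⟩
      obtain ⟨-, h2, -⟩ := hfam f hI
      exact only_of hI.mon h2.separable (by rw [hI.deg]; exact ⟨g, rfl⟩)
        (Pool.Agent.H14N.allH hg hI.mon hI.deg h2 h2N (hrg f hI.mem) hb M ((adm_iff F M N f).2 hM))
    · exact Or.inr ⟨hsub hf.1, hI, hb⟩
  have hAfin : A.Finite := hGfin.subset fun f hf => hf.1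
  have hZfin : Z.Finite := hfin.subset fun f hf => hf.1
  have h12 : G.ncard ≤ A.ncard + Z.ncard :=
    (Set.ncard_le_ncard h11 (hAfin.union hZfin)).trans (Set.ncard_union_le _ _)
  have h13 : (G.ncard : ℝ) ≤ (A.ncard : ℝ) + (Z.ncard : ℝ) := by exact_mod_cast h12
  rw [hpr] at h10
  linarith

end Pool.Agent.Results.MP_ab3ecb_nt.TwoAdicPlacesNearEveryCurve
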